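import Mathlib

/-!
MP_e96fbd_an Q1: a negative answer. In `Z_16` the sets `{0,1,8}` and `{0,2,8}` both have
Sidon constant `√2 < √3` and are not equivalent.
-/

namespace Pool.Agent.Results.MP_e96fbd_an.EqualSidonInequivalent

open Finset Complex

/-- The value at `t` of the `E`-polynomial with coefficients `a`; here
`ZMod.stdAddChar (x * t) = exp (2 π i x t / k)`. -/
noncomputable def polyVal {k : ℕ} [NeZero k] (E : Finset (ZMod k)) (a : ZMod k → ℂ)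
    (t : ZMod k) : ℂ :=
  ∑ x ∈ E, a x * ZMod.stdAddChar (x * t)

/-- The Sidon constant. -/
noncomputable def sidon {k : ℕ} [NeZero k] (E : Finset (ZMod k)) : ℝ :=
  sSup {r : ℝ | ∃ a : ZMod k → ℂ, (∀ t, ‖polyVal E a t‖ ≤ 1) ∧ r = ∑ x ∈ E, ‖a x‖}

/-- Extreme sets. -/
def IsExtreme {k : ℕ} [NeZero k] (E : Finset (ZMod k)) : Prop :=
  sidon E = √(E.card : ℝ)

/-- `F = u E + c` for a unit `u`. -/
def Equivalent {k : ℕ} (E F : Finset (ZMod k)) : Prop :=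
  ∃ (u : (ZMod k)ˣ) (c : ZMod k), F = E.image (fun x => (u : ZMod k) * x + c)

lemma expand (P c v w : ℂ) (hv : ‖v‖ = 1) (hw : ‖w‖ = 1) :
    ‖P + c * (v * w)‖ ^ 2 =
      ‖P‖ ^ 2 + ‖c‖ ^ 2 + 2 * (((starRingEnd ℂ) P * (c * v)) * w).re := by
  have e1 : ‖P + c * (v * w)‖ ^ 2 =
      ‖P‖ ^ 2 + ‖c * (v * w)‖ ^ 2 + 2 * ((starRingEnd ℂ) P * (c * (v * w))).re := by
    rw [← Complex.normSq_eq_norm_sq, Complex.normSq_add, Complex.normSq_eq_norm_sq,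
      Complex.normSq_eq_norm_sq]
    congr 2
    simp only [Complex.mul_re, Complex.conj_re, Complex.conj_im]
    ring
  rw [e1, norm_mul, norm_mul, hv, hw]
  have : (starRingEnd ℂ) P * (c * (v * w)) = ((starRingEnd ℂ) P * (c * v)) * w := by ring
  rw [this]
  ring

lemma sqrt2_sq : √2 ^ 2 = (2 : ℝ) := Real.sq_sqrt (by norm_num)

lemma sqrt2_pos : 0 < √2 := by positivity

lemma exists_m (z : ℂ) (A : ℝ) (b0 : A + 2 * z.re ≤ 1) (b1 : A - 2 * z.im ≤ 1)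
    (b2 : A - 2 * z.re ≤ 1) (b3 : A + 2 * z.im ≤ 1) :
    ∃ m : ℝ, 0 ≤ m ∧ ‖z‖ ≤ √2 * m ∧ A + 2 * m ≤ 1 := by
  have hz2 : ‖z‖ ^ 2 = z.re ^ 2 + z.im ^ 2 := by
    rw [← Complex.normSq_eq_norm_sq, Complex.normSq_apply]; ring
  have hre := sq_abs z.re
  have him := sq_abs z.im
  have hbd : ‖z‖ ≤ √2 * max |z.re| |z.im| := by
    apply le_of_sq_le_sq _ (by positivity)
    rw [mul_pow, sqrt2_sq, hz2]
    rcases le_total |z.re| |z.im| with h | h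
    · rw [max_eq_right h]
      have := pow_le_pow_left₀ (abs_nonneg _) h 2
      linarith
    · rw [max_eq_left h]
      have := pow_le_pow_left₀ (abs_nonneg _) h 2
      linarith
  refine ⟨max |z.re| |z.im|, le_max_of_le_left (abs_nonneg _), hbd, ?_⟩
  rcases le_total |z.re| |z.im| with h | h
  · rw [max_eq_right h]
    rcases abs_cases z.im with ⟨h4, _⟩ | ⟨h4, _⟩ <;> rw [h4] <;> linarith
  · rw [max_eq_left h]
    rcases abs_cases z.re with ⟨h4, _⟩ | ⟨h4, _⟩ <;> rw [h4] <;> linarith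

/-- key estimate -/
lemma key (P c v : ℂ) (hv : ‖v‖ = 1) (h0 : ‖P + c * v‖ ≤ 1) (h1 : ‖P + c * (v * I)‖ ≤ 1)
    (h2 : ‖P + c * (v * (-1))‖ ≤ 1) (h3 : ‖P + c * (v * (-I))‖ ≤ 1) :
    ‖P‖ + ‖c‖ / √2 ≤ 1 := by
  obtain ⟨z, hz⟩ : ∃ z : ℂ, z = (starRingEnd ℂ) P * (c * v) := ⟨_, rfl⟩
  have hzn : ‖z‖ = ‖P‖ * ‖c‖ := by
    rw [hz, norm_mul, norm_mul, RCLike.norm_conj, hv, mul_one]
  have a0 := expand P c v 1 hv (by simp)
  have a1 := expand P c v I hv (by simp)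
  have a2 := expand P c v (-1) hv (by simp)
  have a3 := expand P c v (-I) hv (by simp)
  rw [← hz] at a0 a1 a2 a3
  rw [mul_one] at a0
  have b0 : ‖P + c * v‖ ^ 2 ≤ 1 := pow_le_one₀ (norm_nonneg _) h0
  have b1 : ‖P + c * (v * I)‖ ^ 2 ≤ 1 := pow_le_one₀ (norm_nonneg _) h1
  have b2 : ‖P + c * (v * (-1))‖ ^ 2 ≤ 1 := pow_le_one₀ (norm_nonneg _) h2
  have b3 : ‖P + c * (v * (-I))‖ ^ 2 ≤ 1 := pow_le_one₀ (norm_nonneg _) h3
  rw [a0, mul_one] at b0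
  have r1 : (z * I).re = -z.im := by simp
  have r2 : (z * (-1)).re = -z.re := by simp
  have r3 : (z * (-I)).re = z.im := by simp
  rw [a1, r1] at b1
  rw [a2, r2] at b2
  rw [a3, r3] at b3
  obtain ⟨m, hm0, hm1, hm2⟩ := exists_m z (‖P‖ ^ 2 + ‖c‖ ^ 2) (by linarith) (by linarith)
    (by linarith) (by linarith)
  have hs2 := sqrt2_sq
  have hs0 := sqrt2_pos
  have hinv : (1 : ℝ) / √2 = √2 / 2 := by
    rw [div_eq_div_iff hs0.ne' (by norm_num)]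
    linarith [hs2]
  have hc : ‖c‖ / √2 = ‖c‖ * (√2 / 2) := by
    rw [← hinv]; ring
  have hfin : (‖P‖ + ‖c‖ / √2) ^ 2 ≤ 1 := by
    rw [hc]
    have e : (‖P‖ + ‖c‖ * (√2 / 2)) ^ 2 =
        ‖P‖ ^ 2 + √2 * (‖P‖ * ‖c‖) + ‖c‖ ^ 2 * (√2 ^ 2) / 4 := by ring
    rw [e, hs2, ← hzn]
    have h5 : √2 * ‖z‖ ≤ 2 * m := by
      calc √2 * ‖z‖ ≤ √2 * (√2 * m) := by gcongr
        _ = √2 ^ 2 * m := by ring
        _ = 2 * m := by rw [hs2]
    have h6 := sq_nonneg ‖c‖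
    linarith
  have hpos : 0 ≤ ‖P‖ + ‖c‖ / √2 := by positivity
  exact (sq_le_one_iff₀ hpos).1 hfin

/-- combination of the two key estimates -/
lemma combine (a b c : ℂ) (h1 : ‖a + b‖ + ‖c‖ / √2 ≤ 1) (h2 : ‖a - b‖ + ‖c‖ / √2 ≤ 1) :
    ‖a‖ + ‖b‖ + ‖c‖ ≤ √2 := by
  have hs2 : √2 ^ 2 = (2 : ℝ) := Real.sq_sqrt (by norm_num)
  have hs0 : 0 < √2 := by positivity
  have hpar : ‖a + b‖ ^ 2 + ‖a - b‖ ^ 2 = 2 * (‖a‖ ^ 2 + ‖b‖ ^ 2) := by
    have := parallelogram_law_with_norm ℂ a b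
    nlinarith
  have hM : 0 ≤ 1 - ‖c‖ / √2 := by
    have := norm_nonneg (a + b)
    linarith
  have h3 : (‖a‖ + ‖b‖) ^ 2 ≤ (√2 * (1 - ‖c‖ / √2)) ^ 2 := by
    rw [mul_pow, hs2]
    have e1 : ‖a + b‖ ^ 2 ≤ (1 - ‖c‖ / √2) ^ 2 :=
      pow_le_pow_left₀ (norm_nonneg _) (by linarith) 2
    have e2 : ‖a - b‖ ^ 2 ≤ (1 - ‖c‖ / √2) ^ 2 :=
      pow_le_pow_left₀ (norm_nonneg _) (by linarith) 2
    nlinarith [sq_nonneg (‖a‖ - ‖b‖)]
  have h4 : ‖a‖ + ‖b‖ ≤ √2 * (1 - ‖c‖ / √2) :=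
    le_of_sq_le_sq h3 (by positivity)
  have h5 : √2 * (1 - ‖c‖ / √2) = √2 - ‖c‖ := by
    field_simp
  linarith

/-! ### characters of `Z_16` -/

lemma e4 : (ZMod.stdAddChar (4 : ZMod 16) : ℂ) = I := by
  have h := ZMod.stdAddChar_coe (N := 16) (4 : ℤ)
  have h2 : ((4 : ℤ) : ZMod 16) = 4 := by norm_num
  rw [h2] at h
  rw [h]
  have : (2 * (Real.pi : ℂ) * I * ((4 : ℤ) : ℂ) / ((16 : ℕ) : ℂ)) = (Real.pi : ℂ) / 2 * I := by
    push_cast; ring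
  rw [this, Complex.exp_pi_div_two_mul_I]

lemma eadd (x y : ZMod 16) (h : y = x + 4) :
    (ZMod.stdAddChar y : ℂ) = ZMod.stdAddChar x * I := by
  rw [h, AddChar.map_add_eq_mul, e4]

lemma e0 : (ZMod.stdAddChar (0 : ZMod 16) : ℂ) = 1 := AddChar.map_zero_eq_one _

lemma e8 : (ZMod.stdAddChar (8 : ZMod 16) : ℂ) = -1 := by
  rw [eadd 4 8 (by decide), e4, I_mul_I]

lemma e12 : (ZMod.stdAddChar (12 : ZMod 16) : ℂ) = -I := by
  rw [eadd 8 12 (by decide), e8]; ring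

lemma enorm (x : ZMod 16) : ‖(ZMod.stdAddChar x : ℂ)‖ = 1 := by simp

/-- the two sets -/
def E1 : Finset (ZMod 16) := {0, 8, 1}
def E2 : Finset (ZMod 16) := {0, 8, 2}

lemma polyVal_three (y : ZMod 16) (h0 : y ≠ 0) (h8 : y ≠ 8) (a : ZMod 16 → ℂ)
    (t : ZMod 16) : polyVal ({0, 8, y} : Finset (ZMod 16)) a t =
      a 0 + a 8 * ZMod.stdAddChar (8 * t) + a y * ZMod.stdAddChar (y * t) := by
  unfold polyVal
  rw [Finset.sum_insert, Finset.sum_insert, Finset.sum_singleton, zero_mul, e0, mul_one]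
  · ring
  · simp [Ne.symm h8]
  · simp only [Finset.mem_insert, Finset.mem_singleton, not_or]
    exact ⟨by decide, Ne.symm h0⟩

lemma sum_three (y : ZMod 16) (h0 : y ≠ 0) (h8 : y ≠ 8) (a : ZMod 16 → ℂ) :
    ∑ x ∈ ({0, 8, y} : Finset (ZMod 16)), ‖a x‖ = ‖a 0‖ + ‖a 8‖ + ‖a y‖ := by
  rw [Finset.sum_insert, Finset.sum_insert, Finset.sum_singleton]
  · ring
  · simp [Ne.symm h8]
  · simp only [Finset.mem_insert, Finset.mem_singleton, not_or]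
    exact ⟨by decide, Ne.symm h0⟩

/-- The upper bound, under a condition on the character of `y`. -/
lemma upper (y : ZMod 16) (h0 : y ≠ 0) (h8 : y ≠ 8) (s t : Fin 4 → ZMod 16)
    (hs : ∀ i, 8 * s i = 0) (ht : ∀ i, 8 * t i = 8)
    (hs1 : ∀ i, y * s i = y * s 0 + 4 * (i : ℕ)) (ht1 : ∀ i, y * t i = y * t 0 + 4 * (i : ℕ))
    (a : ZMod 16 → ℂ) (ha : ∀ t, ‖polyVal ({0, 8, y} : Finset (ZMod 16)) a t‖ ≤ 1) :
    ∑ x ∈ ({0, 8, y} : Finset (ZMod 16)), ‖a x‖ ≤ √2 := by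
  rw [sum_three y h0 h8]
  simp only [polyVal_three y h0 h8] at ha
  have gen : ∀ (P : ℂ) (r : Fin 4 → ZMod 16)
      (hr : ∀ i, y * r i = y * r 0 + 4 * (i : ℕ))
      (hP : ∀ i, ‖P + a y * ZMod.stdAddChar (y * r i)‖ ≤ 1), ‖P‖ + ‖a y‖ / √2 ≤ 1 := by
    intro P r hr hP
    have c0 := hP 0
    have c1 := hP 1
    have c2 := hP 2
    have c3 := hP 3
    rw [hr 1, AddChar.map_add_eq_mul] at c1
    rw [hr 2, AddChar.map_add_eq_mul] at c2
    rw [hr 3, AddChar.map_add_eq_mul] at c3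
    have d1 : (4 * (((1 : Fin 4) : ℕ) : ZMod 16)) = 4 := by decide
    have d2 : (4 * (((2 : Fin 4) : ℕ) : ZMod 16)) = 8 := by decide
    have d3 : (4 * (((3 : Fin 4) : ℕ) : ZMod 16)) = 12 := by decide
    rw [d1, e4] at c1
    rw [d2, e8] at c2
    rw [d3, e12] at c3
    exact key P (a y) (ZMod.stdAddChar (y * r 0)) (enorm _) c0 c1 c2 c3
  have g1 := gen (a 0 + a 8) s hs1 (fun i => by
    have := ha (s i)
    rwa [hs i, e0, mul_one] at this)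
  have g2 := gen (a 0 - a 8) t ht1 (fun i => by
    have := ha (t i)
    rw [ht i, e8] at this
    rwa [mul_neg, mul_one, ← sub_eq_add_neg] at this)
  have := combine (a 0) (a 8) (a y) g1 g2
  linarith

/-- The lower bound is attained with coefficient zero at `y`. -/
lemma attained (y : ZMod 16) (h0 : y ≠ 0) (h8 : y ≠ 8) :
    ∃ a : ZMod 16 → ℂ, (∀ t, ‖polyVal ({0, 8, y} : Finset (ZMod 16)) a t‖ ≤ 1) ∧
      √2 = ∑ x ∈ ({0, 8, y} : Finset (ZMod 16)), ‖a x‖ := by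
  have hs2 := sqrt2_sq
  have hs0 := sqrt2_pos
  let a : ZMod 16 → ℂ := fun x =>
    if x = 0 then ((1 / √2 : ℝ) : ℂ) else if x = 8 then ((1 / √2 : ℝ) : ℂ) * I else 0
  have a0 : a 0 = ((1 / √2 : ℝ) : ℂ) := by simp [a]
  have a8 : a 8 = ((1 / √2 : ℝ) : ℂ) * I := by
    have : (8 : ZMod 16) ≠ 0 := by decide
    simp [a, this]
  have ay : a y = 0 := by simp [a, h0, h8]
  have hh : (1 / √2) ^ 2 = (1 / 2 : ℝ) := by
    rw [div_pow, hs2]; norm_num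
  refine ⟨a, fun t => ?_, ?_⟩
  · rw [polyVal_three y h0 h8, a0, a8, ay, zero_mul, add_zero]
    have hval : ∀ w : ℝ, w ^ 2 = 1 →
        ‖((1 / √2 : ℝ) : ℂ) + ((1 / √2 : ℝ) : ℂ) * I * (w : ℂ)‖ ≤ 1 := by
      intro w hw
      have e : ‖((1 / √2 : ℝ) : ℂ) + ((1 / √2 : ℝ) : ℂ) * I * (w : ℂ)‖ ^ 2 = 1 := by
        rw [← Complex.normSq_eq_norm_sq, Complex.normSq_apply]
        simp only [Complex.add_re, Complex.add_im, Complex.mul_re, Complex.mul_im,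
          Complex.ofReal_re, Complex.ofReal_im, Complex.I_re, Complex.I_im]
        have : (1 / √2 + (((1 / √2 * 0 - 0 * 1) * w - (1 / √2 * 1 + 0 * 0) * 0))) *
            (1 / √2 + (((1 / √2 * 0 - 0 * 1) * w - (1 / √2 * 1 + 0 * 0) * 0))) +
            (0 + ((1 / √2 * 0 - 0 * 1) * 0 + (1 / √2 * 1 + 0 * 0) * w)) *
            (0 + ((1 / √2 * 0 - 0 * 1) * 0 + (1 / √2 * 1 + 0 * 0) * w)) =
            (1 / √2) ^ 2 + (1 / √2) ^ 2 * w ^ 2 := by ring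
        rw [this, hh, hw]
        norm_num
      have hn := norm_nonneg (((1 / √2 : ℝ) : ℂ) + ((1 / √2 : ℝ) : ℂ) * I * (w : ℂ))
      nlinarith
    have hcases : ∀ t : ZMod 16, 8 * t = 0 ∨ 8 * t = 8 := by decide
    rcases hcases t with h | h
    · rw [h, e0]
      have := hval 1 (by norm_num)
      simpa using this
    · rw [h, e8]
      have := hval (-1) (by norm_num)
      simpa using this
  · rw [sum_three y h0 h8, a0, a8, ay, norm_zero, add_zero, norm_mul, Complex.norm_I, mul_one,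
      Complex.norm_real, Real.norm_of_nonneg (by positivity)]
    field_simp
    linarith [hs2]

lemma sidon_eq (y : ZMod 16) (h0 : y ≠ 0) (h8 : y ≠ 8) (s t : Fin 4 → ZMod 16)
    (hs : ∀ i, 8 * s i = 0) (ht : ∀ i, 8 * t i = 8)
    (hs1 : ∀ i, y * s i = y * s 0 + 4 * (i : ℕ))
    (ht1 : ∀ i, y * t i = y * t 0 + 4 * (i : ℕ)) :
    sidon ({0, 8, y} : Finset (ZMod 16)) = √2 := by
  unfold sidon
  apply IsGreatest.csSup_eq
  refine ⟨attained y h0 h8, ?_⟩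
  rintro r ⟨a, ha, rfl⟩
  exact upper y h0 h8 s t hs ht hs1 ht1 a ha

lemma sidon1 : sidon E1 = √2 :=
  sidon_eq 1 (by decide) (by decide) ![0, 4, 8, 12] ![1, 5, 9, 13] (by decide) (by decide)
    (by decide) (by decide)

lemma sidon2 : sidon E2 = √2 :=
  sidon_eq 2 (by decide) (by decide) ![0, 2, 4, 6] ![1, 3, 5, 7] (by decide) (by decide)
    (by decide) (by decide)

lemma card1 : E1.card = 3 := by decide
lemma card2 : E2.card = 3 := by decide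

lemma inequivalent : ¬ Equivalent E1 E2 := by
  rintro ⟨u, c, h⟩
  have : ∀ u c : ZMod 16, E2 ≠ E1.image (fun x => u * x + c) := by decide +kernel
  exact this u c h

lemma sqrt_ne : √2 ≠ √(3 : ℝ) := by
  intro h
  have h2 : √2 ^ 2 = √(3 : ℝ) ^ 2 := by rw [h]
  rw [Real.sq_sqrt (by norm_num), Real.sq_sqrt (by norm_num)] at h2
  norm_num at h2

/-- **Negative answer to Q1 of MP_e96fbd_an.** In `Z_16` the sets `{0, 8, 1}` and `{0, 8, 2}`
have the same Sidon constant `√2`, they are not equivalent, and neither of them is extreme.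
Hence the universal statement is false. -/
theorem result :
    (∃ E F : Finset (ZMod 16), E.card = 3 ∧ F.card = 3 ∧ sidon E = √2 ∧ sidon F = √2 ∧
      ¬ Equivalent E F ∧ ¬ IsExtreme E ∧ ¬ IsExtreme F) ∧
    ¬ ∀ (k : ℕ) [NeZero k] (E F : Finset (ZMod k)), E.Nonempty → F.Nonempty →
      E.card = F.card → sidon E = sidon F → ¬ Equivalent E F → IsExtreme E ∧ IsExtreme F := by
  have hn1 : ¬ IsExtreme E1 := by
    unfold IsExtreme
    rw [sidon1, card1]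
    exact_mod_cast sqrt_ne
  have hn2 : ¬ IsExtreme E2 := by
    unfold IsExtreme
    rw [sidon2, card2]
    exact_mod_cast sqrt_ne
  refine ⟨⟨E1, E2, card1, card2, sidon1, sidon2, inequivalent, hn1, hn2⟩, fun H => ?_⟩
  exact hn1 (H 16 E1 E2 ⟨0, by decide⟩ ⟨0, by decide⟩ (card1.trans card2.symm)
    (sidon1.trans sidon2.symm) inequivalent).1

end Pool.Agent.Results.MP_e96fbd_an.EqualSidonInequivalent
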